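import Pool.Agent.H695R3.PP.Stmts

/-!
# Project H695-LP: the limit of a chain of eigenvectors
-/

set_option autoImplicit false

namespace Pool.Agent.H644R3.PP

open Pool.Agent.H695R3.PP

/-- Minkowski on finite sets -/
lemma tri (F : Finset ℤ) (f g : ℤ → ℝ) (A B : ℝ) (hA : 0 ≤ A) (hB : 0 ≤ B)
    (hf : ∑ n ∈ F, f n ^ 2 ≤ A ^ 2) (hg : ∑ n ∈ F, g n ^ 2 ≤ B ^ 2) :
    ∑ n ∈ F, (f n + g n) ^ 2 ≤ (A + B) ^ 2 := by
  have h1 : ∑ n ∈ F, (f n + g n) ^ 2 =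
      ∑ n ∈ F, f n ^ 2 + ∑ n ∈ F, g n ^ 2 + 2 * ∑ n ∈ F, f n * g n := by
    rw [Finset.mul_sum, ← Finset.sum_add_distrib, ← Finset.sum_add_distrib]
    apply Finset.sum_congr rfl
    intro n _
    ring
  have h2 := Finset.sum_mul_sq_le_sq_mul_sq F f g
  have h3 : (∑ n ∈ F, f n * g n) ^ 2 ≤ (A * B) ^ 2 := by
    have hf0 : 0 ≤ ∑ n ∈ F, f n ^ 2 := Finset.sum_nonneg fun n _ => sq_nonneg _
    have hg0 : 0 ≤ ∑ n ∈ F, g n ^ 2 := Finset.sum_nonneg fun n _ => sq_nonneg _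
    calc (∑ n ∈ F, f n * g n) ^ 2 ≤ (∑ n ∈ F, f n ^ 2) * ∑ n ∈ F, g n ^ 2 := h2
      _ ≤ A ^ 2 * B ^ 2 := mul_le_mul hf hg hg0 (sq_nonneg _)
      _ = (A * B) ^ 2 := by ring
  have h4 : ∑ n ∈ F, f n * g n ≤ A * B := 
    (le_abs_self _).trans (abs_le_of_sq_le_sq h3 (mul_nonneg hA hB))
  rw [h1]
  nlinarith

lemma step (hS : TaskStep) (V : ℤ → ℝ) (L : ℕ → ℕ) (a τ d : ℕ → ℝ) (k₀ : ℕ) (hL : StrictMono L)
    (hpos : ∀ k, 0 < a k ∧ 0 < τ k ∧ 0 < d k)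
    (hB1 : ∀ k, k₀ ≤ k → ¬ Bad1 (L k) (a k) (τ k) V)
    (hB2 : ∀ k, k₀ ≤ k → ¬ Bad2 (L (k + 1)) (d (k + 1)) V)
    (h4 : ∀ k, k₀ ≤ k → 4 * τ k ≤ d (k + 1))
    (ha : ∀ k, k₀ ≤ k → a (k + 1) + 4 * τ k / d (k + 1) ≤ a k) (k : ℕ) (hk : k₀ ≤ k)
    (E : ℝ) (ψ : ℤ → ℝ) (hE : IsEig V (-(L k : ℤ)) (L k) E ψ) (h0 : a k ≤ |ψ 0|) :
    ∃ (E' : ℝ) (φ : ℤ → ℝ), IsEig V (-(L (k + 1) : ℤ)) (L (k + 1)) E' φ ∧ a (k + 1) ≤ |φ 0| ∧
      |E' - E| ≤ 2 * τ k ∧ ∀ F : Finset ℤ, ∑ n ∈ F, (ψ n - φ n) ^ 2 ≤ (4 * τ k / d (k + 1)) ^ 2 := by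
  have hb : |ψ (L k)| < τ k ∧ |ψ (-(L k : ℤ))| < τ k := by
    constructor
    · by_contra h
      exact hB1 k hk ⟨E, ψ, hE, h0, Or.inl (not_lt.mp h)⟩
    · by_contra h
      exact hB1 k hk ⟨E, ψ, hE, h0, Or.inr (not_lt.mp h)⟩
  have hlt : L k < L (k + 1) := hL (Nat.lt_succ_self k)
  obtain ⟨E', φ, hφ, hEE, hsum⟩ := hS V (L k) (L (k + 1)) E (τ k) (d (k + 1)) ψ hlt
    (hpos k).2.1 (h4 k hk) (hB2 k hk) hE hb.1.le hb.2.le
  have hc0 : 0 ≤ 4 * τ k / d (k + 1) :=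
    div_nonneg (mul_nonneg (by norm_num) (hpos k).2.1.le) (hpos (k + 1)).2.2.le
  have hF : ∀ F : Finset ℤ, ∑ n ∈ F, (ψ n - φ n) ^ 2 ≤ (4 * τ k / d (k + 1)) ^ 2 := by
    intro F
    refine le_trans ?_ hsum
    have h1 : ∑ n ∈ F, (ψ n - φ n) ^ 2 ≤
        ∑ n ∈ F ∪ Finset.Icc (-(L (k + 1) : ℤ)) (L (k + 1)), (ψ n - φ n) ^ 2 :=
      Finset.sum_le_sum_of_subset_of_nonneg Finset.subset_union_left fun n _ _ => sq_nonneg _
    refine le_trans h1 (le_of_eq ?_)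
    symm
    apply Finset.sum_subset Finset.subset_union_right
    intro n _ hn
    rw [Finset.mem_Icc, not_and_or, not_le, not_le] at hn
    have hn' : n < -(L k : ℤ) ∨ (L k : ℤ) < n := by
      rcases hn with h | h
      · left; omega
      · right; omega
    rw [hE.1 n hn', hφ.1 n hn]
    norm_num
  refine ⟨E', φ, hφ, ?_, hEE, hF⟩
  have h1 := hF {0}
  rw [Finset.sum_singleton] at h1
  have h2 : |ψ 0 - φ 0| ≤ 4 * τ k / d (k + 1) := abs_le_of_sq_le_sq' h1 hc0 |> abs_le.mpr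
  have h3 : |ψ 0| ≤ |ψ 0 - φ 0| + |φ 0| := by
    have := abs_add_le (ψ 0 - φ 0) (φ 0)
    simpa using this
  have h4' := ha k hk
  linarith

theorem taskChain (hS : TaskStep) : TaskChain := by
  intro V L a τ d k₀ hL hpos hB1 hB2 h4 ha hs1 hs2 E ψ hE h0
  let P : ℕ → Type := fun j => {p : ℝ × (ℤ → ℝ) //
    IsEig V (-(L (k₀ + j) : ℤ)) (L (k₀ + j)) p.1 p.2 ∧ a (k₀ + j) ≤ |p.2 0|}
  have hnxt : ∀ (j : ℕ) (p : P j), ∃ q : P (j + 1), |q.1.1 - p.1.1| ≤ 2 * τ (k₀ + j) ∧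
      ∀ F : Finset ℤ, ∑ n ∈ F, (p.1.2 n - q.1.2 n) ^ 2 ≤
        (4 * τ (k₀ + j) / d (k₀ + j + 1)) ^ 2 := by
    intro j p
    obtain ⟨E', φ, h1, h2, h3, h5⟩ := step hS V L a τ d k₀ hL hpos hB1 hB2 h4 ha (k₀ + j)
      (by omega) p.1.1 p.1.2 p.2.1 p.2.2
    exact ⟨⟨(E', φ), h1, h2⟩, h3, h5⟩
  choose nxt hn1 hn2 using hnxt
  let s : ∀ j, P j := fun j => Nat.rec (motive := P) ⟨(E, ψ), hE, h0⟩ (fun j p => nxt j p) j
  have hs0 : (s 0).1 = (E, ψ) := rfl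
  have hss : ∀ j, s (j + 1) = nxt j (s j) := fun j => rfl
  set c : ℕ → ℝ := fun j => 4 * τ (k₀ + j) / d (k₀ + j + 1) with hc
  have hc0 : ∀ j, 0 ≤ c j := fun j =>
    div_nonneg (mul_nonneg (by norm_num) (hpos _).2.1.le) (hpos _).2.2.le
  have hcs : Summable c := by
    have h1 : Summable (fun j => τ (j + k₀) / d (j + k₀ + 1)) :=
      (summable_nat_add_iff (f := fun k => τ k / d (k + 1)) k₀).mpr hs1
    have h2 := h1.mul_left 4
    refine h2.congr fun j => ?_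
    show 4 * (τ (j + k₀) / d (j + k₀ + 1)) = 4 * τ (k₀ + j) / d (k₀ + j + 1)
    rw [add_comm j k₀, mul_div_assoc]
  have hcsum : ∑' j, c j = 4 * ∑' j, τ (k₀ + j) / d (k₀ + j + 1) := by
    rw [← tsum_mul_left]
    apply tsum_congr
    intro j
    show 4 * τ (k₀ + j) / d (k₀ + j + 1) = _
    rw [mul_div_assoc]
  have hE1 : ∀ j, |(s (j + 1)).1.1 - (s j).1.1| ≤ 2 * τ (k₀ + j) := fun j => hn1 j (s j)
  have hF1 : ∀ j (F : Finset ℤ), ∑ n ∈ F, ((s j).1.2 n - (s (j + 1)).1.2 n) ^ 2 ≤ c j ^ 2 :=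
    fun j F => hn2 j (s j) F
  -- the limit of the eigenvalues
  have hEc : CauchySeq (fun j => (s j).1.1) := by
    apply cauchySeq_of_dist_le_of_summable (fun j => 2 * τ (k₀ + j))
    · intro j
      rw [dist_comm, Real.dist_eq]
      exact hE1 j
    · have h1 : Summable (fun j => τ (j + k₀)) := (summable_nat_add_iff k₀).mpr hs2
      refine (h1.mul_left 2).congr fun j => ?_
      rw [add_comm j k₀]
  obtain ⟨e, he⟩ := cauchySeq_tendsto_of_complete hEc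
  -- the pointwise limits
  have hψc : ∀ n : ℤ, ∃ x : ℝ, Filter.Tendsto (fun j => (s j).1.2 n) Filter.atTop (nhds x) := by
    intro n
    apply cauchySeq_tendsto_of_complete
    apply cauchySeq_of_dist_le_of_summable c
    · intro j
      rw [Real.dist_eq]
      have h1 := hF1 j {n}
      rw [Finset.sum_singleton] at h1
      exact abs_le.mpr (abs_le_of_sq_le_sq' h1 (hc0 j))
    · exact hcs
  choose φ hφ using hψc
  -- the distance on finite sets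
  have hdist : ∀ j (F : Finset ℤ), ∑ n ∈ F, (ψ n - (s j).1.2 n) ^ 2 ≤
      (∑ i ∈ Finset.range j, c i) ^ 2 := by
    intro j F
    induction j with
    | zero =>
      rw [hs0]
      simp
    | succ j ih =>
      rw [Finset.sum_range_succ]
      have h1 := tri F (fun n => ψ n - (s j).1.2 n) (fun n => (s j).1.2 n - (s (j + 1)).1.2 n)
        (∑ i ∈ Finset.range j, c i) (c j) (Finset.sum_nonneg fun i _ => hc0 i) (hc0 j) ih
        (hF1 j F)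
      refine le_trans (le_of_eq ?_) h1
      apply Finset.sum_congr rfl
      intro n _
      congr 1
      ring
  have hdist2 : ∀ F : Finset ℤ, ∑ n ∈ F, (ψ n - φ n) ^ 2 ≤ (∑' j, c j) ^ 2 := by
    intro F
    have h1 : Filter.Tendsto (fun j => ∑ n ∈ F, (ψ n - (s j).1.2 n) ^ 2) Filter.atTop
        (nhds (∑ n ∈ F, (ψ n - φ n) ^ 2)) := by
      apply tendsto_finsetSum
      intro n _
      exact (tendsto_const_nhds.sub (hφ n)).pow 2
    apply le_of_tendsto' h1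
    intro j
    refine le_trans (hdist j F) ?_
    apply pow_le_pow_left₀ (Finset.sum_nonneg fun i _ => hc0 i)
    exact hcs.sum_le_tsum _ fun i _ => hc0 i
  have hsum1 : Summable (fun n => (ψ n - φ n) ^ 2) :=
    summable_of_sum_le (fun n => sq_nonneg _) hdist2
  have hsψ : Summable (fun n => ψ n ^ 2) := by
    apply summable_of_ne_finset_zero (s := Finset.Icc (-(L k₀ : ℤ)) (L k₀))
    intro n hn
    rw [Finset.mem_Icc, not_and_or, not_le, not_le] at hn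
    rw [hE.1 n hn]
    norm_num
  refine ⟨e, φ, ?_, ?_, hsum1, ?_⟩
  · refine Summable.of_nonneg_of_le (fun n => sq_nonneg _) (fun n => ?_)
      ((hsψ.mul_left 2).add (hsum1.mul_left 2))
    show φ n ^ 2 ≤ 2 * ψ n ^ 2 + 2 * (ψ n - φ n) ^ 2
    nlinarith [sq_nonneg (2 * ψ n - φ n)]
  · intro n
    have h1 : Filter.Tendsto (fun j => (s j).1.2 (n + 1) + (s j).1.2 (n - 1) +
        V n * (s j).1.2 n) Filter.atTop (nhds (φ (n + 1) + φ (n - 1) + V n * φ n)) :=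
      ((hφ (n + 1)).add (hφ (n - 1))).add ((hφ n).const_mul (V n))
    have h2 : Filter.Tendsto (fun j => (s j).1.1 * (s j).1.2 n) Filter.atTop
        (nhds (e * φ n)) := he.mul (hφ n)
    refine tendsto_nhds_unique h1 (h2.congr' ?_)
    filter_upwards [Filter.eventually_ge_atTop n.natAbs] with j hj
    have h3 : k₀ + j ≤ L (k₀ + j) := hL.id_le _
    symm
    apply (s j).2.1.2.2 n
    · omega
    · omega
  · rw [← hcsum]
    exact hsum1.tsum_le_of_sum_le hdist2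

end Pool.Agent.H644R3.PP
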